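import Pool.Agent.N299.PX.Stm

/-!
Project PX (helper299): leaf PM (helper37).
-/

set_option autoImplicit false

open Filter Topology

namespace Pool.Agent.N37.PX

open Pool.Agent.N299 Pool.Agent.N299.DT Pool.Agent.N299.ND Pool.Agent.N299.PX

section

variable {B : Type} [CStarAlgebra B]

/-- asymptotic equality of sequences -/
def Eq' (x y : ℕ → B) : Prop := Tendsto (fun k => x k - y k) atTop (𝓝 0)

/-- bounded sequences -/
def Bd (x : ℕ → B) : Prop := ∃ M : ℝ, ∀ k, ‖x k‖ ≤ M

theorem Eq'.refl (x : ℕ → B) : Eq' x x := by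
  unfold Eq'
  simp only [sub_self]
  exact tendsto_const_nhds

theorem Eq'.symm {x y : ℕ → B} (h : Eq' x y) : Eq' y x := by
  have h1 := h.neg
  rw [neg_zero] at h1
  refine h1.congr fun k => ?_
  rw [neg_sub]

theorem Eq'.trans {x y z : ℕ → B} (h : Eq' x y) (h' : Eq' y z) : Eq' x z := by
  have h1 := h.add h'
  rw [add_zero] at h1
  refine h1.congr fun k => ?_
  rw [sub_add_sub_cancel]

theorem Eq'.add {x y z w : ℕ → B} (h : Eq' x y) (h' : Eq' z w) : Eq' (x + z) (y + w) := by
  have h1 := Tendsto.add h h'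
  rw [add_zero] at h1
  refine h1.congr fun k => ?_
  simp only [Pi.add_apply]
  abel

theorem Eq'.sum {ι : Type} (s : Finset ι) {x y : ι → ℕ → B} (h : ∀ i ∈ s, Eq' (x i) (y i)) :
    Eq' (∑ i ∈ s, x i) (∑ i ∈ s, y i) := by
  classical
  induction s using Finset.induction_on with
  | empty => simpa using Eq'.refl (0 : ℕ → B)
  | insert a s ha ih =>
    rw [Finset.sum_insert ha, Finset.sum_insert ha]
    exact (h a (Finset.mem_insert_self a s)).add
      (ih fun i hi => h i (Finset.mem_insert_of_mem hi))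

theorem Eq'.mul_left {x y z : ℕ → B} (hz : Bd z) (h : Eq' x y) : Eq' (z * x) (z * y) := by
  obtain ⟨M, hM⟩ := hz
  unfold Eq' at h ⊢
  rw [tendsto_zero_iff_norm_tendsto_zero] at h ⊢
  have h1 := h.const_mul M
  rw [mul_zero] at h1
  refine squeeze_zero (fun k => norm_nonneg _) (fun k => ?_) h1
  rw [Pi.mul_apply, Pi.mul_apply, ← mul_sub]
  exact (norm_mul_le _ _).trans (mul_le_mul_of_nonneg_right (hM k) (norm_nonneg _))

theorem Eq'.mul_right {x y z : ℕ → B} (hz : Bd z) (h : Eq' x y) : Eq' (x * z) (y * z) := by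
  obtain ⟨M, hM⟩ := hz
  unfold Eq' at h ⊢
  rw [tendsto_zero_iff_norm_tendsto_zero] at h ⊢
  have h1 := h.mul_const M
  rw [zero_mul] at h1
  refine squeeze_zero (fun k => norm_nonneg _) (fun k => ?_) h1
  rw [Pi.mul_apply, Pi.mul_apply, ← sub_mul]
  exact (norm_mul_le _ _).trans (mul_le_mul_of_nonneg_left (hM k) (norm_nonneg _))

theorem Bd.const (a : B) : Bd (fun _ => a) := ⟨‖a‖, fun _ => le_rfl⟩

theorem Bd.mul {x y : ℕ → B} (hx : Bd x) (hy : Bd y) : Bd (x * y) := by
  obtain ⟨M, hM⟩ := hx
  obtain ⟨N, hN⟩ := hy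
  refine ⟨M * N, fun k => (norm_mul_le _ _).trans ?_⟩
  exact mul_le_mul (hM k) (hN k) (norm_nonneg _) ((norm_nonneg _).trans (hM k))

theorem Bd.star {x : ℕ → B} (hx : Bd x) : Bd (star x) := by
  obtain ⟨M, hM⟩ := hx
  refine ⟨M, fun k => ?_⟩
  rw [Pi.star_apply, norm_star]
  exact hM k

theorem Eq'.of_le {x y : ℕ → B} (h : ∀ k : ℕ, ‖x k - y k‖ ≤ 1 / ((k : ℝ) + 1)) : Eq' x y := by
  unfold Eq'
  rw [tendsto_zero_iff_norm_tendsto_zero]
  exact squeeze_zero (fun k => norm_nonneg _) h tendsto_one_div_add_atTop_nhds_zero_nat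

theorem Bd.sum {ι : Type} (s : Finset ι) {x : ι → ℕ → B} (h : ∀ i ∈ s, Bd (x i)) :
    Bd (∑ i ∈ s, x i) := by
  choose! M hM using h
  refine ⟨∑ i ∈ s, M i, fun k => ?_⟩
  rw [Finset.sum_apply]
  exact (norm_sum_le _ _).trans (Finset.sum_le_sum fun i hi => hM i hi k)

/-- the constant sequence -/
def cst (a : B) : ℕ → B := fun _ => a

theorem cst_mul (a b : B) : cst (a * b) = cst a * cst b := rfl

theorem cst_star (a : B) : star (cst a) = cst (star a) := rfl

theorem cst_bd (a : B) : Bd (cst a) := Bd.const a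

/-- the rows made almost central -/
theorem stepA {N : ℕ} {ι : Type} (b : B) (r : Fin (N + 1) → ι → B) (c : Fin (N + 1) → ℕ → B)
    (hc : ∀ l, Bd (c l))
    (hb : ∀ l, Eq' (c l * cst b) (cst b * c l))
    (hr : ∀ l q, Eq' (cst (star (r l q)) * c 0) (c 0 * cst (star (r l q))))
    (ho : ∀ l l' q, Eq' (c l * star (c l') * cst (r l' q))
      ((if l = l' then c 0 * c 0 else 0) * cst (r l' q))) (q q' : ι) :
    Eq' (star (∑ l, star (c l) * cst (r l q)) * cst b * (∑ l, star (c l) * cst (r l q')))
      (c 0 * c 0 * cst (∑ l, star (r l q) * b * r l q')) := by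
  have h1 : star (∑ l, star (c l) * cst (r l q)) * cst b * (∑ l, star (c l) * cst (r l q')) =
      ∑ l, ∑ l', cst (star (r l q)) * (c l * cst b) * (star (c l') * cst (r l' q')) := by
    rw [star_sum, Finset.sum_mul, Finset.sum_mul]
    refine Finset.sum_congr rfl fun l _ => ?_
    rw [Finset.mul_sum]
    refine Finset.sum_congr rfl fun l' _ => ?_
    rw [star_mul, star_star, cst_star, mul_assoc (cst (star (r l q))) (c l) (cst b)]
  rw [h1]
  have h2 : ∀ l ∈ Finset.univ, Eq' (∑ l', cst (star (r l q)) * (c l * cst b) *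
      (star (c l') * cst (r l' q'))) (c 0 * c 0 * cst (star (r l q) * b * r l q')) := by
    intro l _
    have h3 : ∀ l' ∈ Finset.univ, Eq' (cst (star (r l q)) * (c l * cst b) *
        (star (c l') * cst (r l' q')))
        (cst (star (r l q)) * cst b * ((if l = l' then c 0 * c 0 else 0) * cst (r l' q'))) := by
      intro l' _
      have h4 := ((hb l).mul_left (cst_bd (star (r l q)))).mul_right
        ((hc l').star.mul (cst_bd (r l' q')))
      refine h4.trans ?_
      have h5 : cst (star (r l q)) * (cst b * c l) * (star (c l') * cst (r l' q')) =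
          cst (star (r l q)) * cst b * (c l * star (c l') * cst (r l' q')) := by
        simp only [mul_assoc]
      rw [h5]
      exact (ho l l' q').mul_left ((cst_bd _).mul (cst_bd _))
    refine (Eq'.sum _ h3).trans ?_
    have h6 : ∑ l', cst (star (r l q)) * cst b * ((if l = l' then c 0 * c 0 else 0) *
        cst (r l' q')) = cst (star (r l q)) * cst b * (c 0 * (c 0 * cst (r l q'))) := by
      rw [Finset.sum_eq_single l]
      · rw [if_pos rfl, mul_assoc (c 0) (c 0)]
      · intro l' _ hne
        rw [if_neg hne.symm, zero_mul, mul_zero]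
      · intro h
        exact absurd (Finset.mem_univ l) h
    rw [h6]
    have h7 : ∀ Z : ℕ → B, Bd Z → Eq' (cst (star (r l q)) * cst b * (c 0 * Z))
        (c 0 * (cst (star (r l q)) * cst b * Z)) := by
      intro Z hZ
      have e1 : cst (star (r l q)) * cst b * (c 0 * Z) =
          cst (star (r l q)) * (cst b * c 0) * Z := by simp only [mul_assoc]
      have e2 : cst (star (r l q)) * (c 0 * cst b) * Z =
          (cst (star (r l q)) * c 0) * (cst b * Z) := by simp only [mul_assoc]
      have e3 : (c 0 * cst (star (r l q))) * (cst b * Z) =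
          c 0 * (cst (star (r l q)) * cst b * Z) := by simp only [mul_assoc]
      rw [e1, ← e3]
      refine (((hb 0).symm.mul_left (cst_bd _)).mul_right hZ).trans ?_
      rw [e2]
      exact (hr l q).mul_right ((cst_bd _).mul hZ)
    refine (h7 _ ((hc 0).mul (cst_bd _))).trans ?_
    refine ((h7 _ (cst_bd _)).mul_left (hc 0)).trans ?_
    have h8 : c 0 * (c 0 * (cst (star (r l q)) * cst b * cst (r l q'))) =
        c 0 * c 0 * cst (star (r l q) * b * r l q') := by
      rw [cst_mul, cst_mul, mul_assoc (c 0) (c 0)]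
    rw [h8]
    exact Eq'.refl _
  refine (Eq'.sum _ h2).trans ?_
  have h9 : ∑ l, c 0 * c 0 * cst (star (r l q) * b * r l q') =
      c 0 * c 0 * cst (∑ l, star (r l q) * b * r l q') := by
    rw [← Finset.mul_sum]
    congr 1
    funext k
    rw [Finset.sum_apply]
    rfl
  rw [h9]
  exact Eq'.refl _

/-- summation over the cofactors -/
theorem stepB {m : ℕ} {κ : Type} [DecidableEq κ] (b : B) (c0 : ℕ → B)
    (S : κ × Fin m → κ × Fin m → B) (U : κ × Fin m → ℕ → B) (t : Fin m → ℕ → B)
    (hc0 : Bd c0) (ht : ∀ p, Bd (t p))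
    (hU : ∀ x y, Eq' (star (U x) * cst b * U y) (c0 * c0 * cst (S x y)))
    (htb : ∀ p, Eq' (cst b * t p) (t p * cst b)) (i j : κ) :
    Eq' (star (∑ p, U (i, p) * t p) * cst b * (∑ p, U (j, p) * t p))
      ((if i = j then (∑ p, star (t p) * (c0 * c0) * t p) * cst b else 0) +
        ∑ p, ∑ p', star (t p) * (c0 * c0 * cst (S (i, p) (j, p') -
          if (i, p) = (j, p') then b else 0)) * t p') := by
  have h1 : star (∑ p, U (i, p) * t p) * cst b * (∑ p, U (j, p) * t p) =
      ∑ p, ∑ p', star (t p) * (star (U (i, p)) * cst b * U (j, p')) * t p' := by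
    rw [star_sum, Finset.sum_mul, Finset.sum_mul]
    refine Finset.sum_congr rfl fun p _ => ?_
    rw [Finset.mul_sum]
    refine Finset.sum_congr rfl fun p' _ => ?_
    rw [star_mul]
    simp only [mul_assoc]
  have h2 : Eq' (∑ p, ∑ p', star (t p) * (star (U (i, p)) * cst b * U (j, p')) * t p')
      (∑ p, ∑ p', star (t p) * (c0 * c0 * cst (S (i, p) (j, p'))) * t p') :=
    Eq'.sum _ fun p _ => Eq'.sum _ fun p' _ =>
      ((hU _ _).mul_left (ht p).star).mul_right (ht p')
  rw [h1]
  refine h2.trans ?_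
  have h3 : ∑ p, ∑ p', star (t p) * (c0 * c0 * cst (S (i, p) (j, p'))) * t p' =
      (∑ p, ∑ p', star (t p) * (c0 * c0 * cst (if (i, p) = (j, p') then b else 0)) * t p') +
        ∑ p, ∑ p', star (t p) * (c0 * c0 * cst (S (i, p) (j, p') -
          if (i, p) = (j, p') then b else 0)) * t p' := by
    rw [← Finset.sum_add_distrib]
    refine Finset.sum_congr rfl fun p _ => ?_
    rw [← Finset.sum_add_distrib]
    refine Finset.sum_congr rfl fun p' _ => ?_
    rw [← add_mul, ← mul_add, ← mul_add]
    congr 3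
    funext k
    show S (i, p) (j, p') = (if (i, p) = (j, p') then b else 0) +
      (S (i, p) (j, p') - if (i, p) = (j, p') then b else 0)
    abel
  rw [h3]
  refine Eq'.add ?_ (Eq'.refl _)
  have h4 : ∑ p, ∑ p', star (t p) * (c0 * c0 * cst (if (i, p) = (j, p') then b else 0)) * t p' =
      if i = j then ∑ p, star (t p) * (c0 * c0) * (cst b * t p) else 0 := by
    have hz : (cst (0 : B) : ℕ → B) = 0 := rfl
    split_ifs with hij
    · subst hij
      refine Finset.sum_congr rfl fun p _ => ?_
      rw [Finset.sum_eq_single p]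
      · rw [if_pos rfl]
        simp only [mul_assoc]
      · intro p' _ hne
        rw [if_neg (fun h => hne (Prod.ext_iff.1 h).2.symm), hz, mul_zero, mul_zero, zero_mul]
      · intro h
        exact absurd (Finset.mem_univ p) h
    · refine Finset.sum_eq_zero fun p _ => Finset.sum_eq_zero fun p' _ => ?_
      rw [if_neg (fun h => hij (Prod.ext_iff.1 h).1), hz, mul_zero, mul_zero, zero_mul]
  rw [h4]
  split_ifs with hij
  · rw [Finset.sum_mul]
    refine Eq'.sum _ fun p _ => ?_
    rw [mul_assoc (star (t p) * (c0 * c0)) (t p) (cst b)]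
    exact (htb p).mul_left ((ht p).star.mul (hc0.mul hc0))
  · exact Eq'.refl _

end

theorem t_PM : S_PM := by
  intro B _ I hI hTT n hn hR K b hb hpos ε hε
  classical
  obtain ⟨N, rfl⟩ : ∃ N, n = N + 1 := ⟨n - 1, by omega⟩
  obtain ⟨C, hC, hT⟩ := hTT N {b} (ε / 3) (by
    intro a ha
    rw [Finset.mem_singleton] at ha
    rwa [ha]) (by linarith)
  have hD : 0 < 3 * (((N : ℝ) + 2) ^ 2 * C ^ 2 + 1) := by positivity
  obtain ⟨r, hrI, hr⟩ := hR (K * (N + 2)) b hb hpos (ε / (3 * (((N : ℝ) + 2) ^ 2 * C ^ 2 + 1)))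
    (by positivity)
  obtain ⟨ε1, hε1⟩ : ∃ ε1, ε1 = ε / (3 * (((N : ℝ) + 2) ^ 2 * C ^ 2 + 1)) := ⟨_, rfl⟩
  rw [← hε1] at hr
  have hε1' : ((N : ℝ) + 2) ^ 2 * C ^ 2 * ε1 ≤ ε / 3 := by
    rw [hε1, ← mul_div_assoc, div_le_iff₀ hD]
    nlinarith [sq_nonneg (((N : ℝ) + 2) * C)]
  have hε1pos : 0 < ε1 := by
    rw [hε1]
    positivity
  let r' : Fin (N + 1) → Fin K × Fin (N + 2) → B := fun l x => r l (finProdFinEquiv x)
  have hr' : ∀ x y, ‖∑ l, star (r' l x) * b * r' l y - (if x = y then b else 0)‖ ≤ ε1 := by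
    intro x y
    have h1 := hr (finProdFinEquiv x) (finProdFinEquiv y)
    simp only [EmbeddingLike.apply_eq_iff_eq] at h1
    exact h1
  -- the finite set
  let F' : Finset B := {b} ∪ (Finset.univ.image (fun x : Fin (N + 1) × (Fin K × Fin (N + 2)) =>
    r' x.1 x.2)) ∪ (Finset.univ.image (fun x : Fin (N + 1) × (Fin K × Fin (N + 2)) =>
    star (r' x.1 x.2)))
  have hbF : b ∈ F' := by simp [F']
  have hrF : ∀ l x, r' l x ∈ F' := by
    intro l x
    apply Finset.mem_union_left
    apply Finset.mem_union_right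
    exact Finset.mem_image.2 ⟨(l, x), Finset.mem_univ _, rfl⟩
  have hrF' : ∀ l x, star (r' l x) ∈ F' := by
    intro l x
    apply Finset.mem_union_right
    exact Finset.mem_image.2 ⟨(l, x), Finset.mem_univ _, rfl⟩
  have hFI : ∀ a ∈ F', a ∈ I := by
    intro a ha
    simp only [F', Finset.mem_union, Finset.mem_singleton, Finset.mem_image] at ha
    rcases ha with (rfl | ⟨x, -, rfl⟩) | ⟨x, -, rfl⟩
    · exact hb
    · exact hrI _ _
    · exact hI.star _ (hrI _ _)
  choose c t hcI htI hc1 htC hc0 hcom hfin using fun k : ℕ =>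
    hT F' (1 / ((k : ℝ) + 1)) hFI (by positivity)
  let c' : Fin (N + 1) → ℕ → B := fun l k => c k l
  let t' : Fin (N + 2) → ℕ → B := fun p k => t k p
  have hc' : ∀ l, Bd (c' l) := fun l => ⟨1, fun k => hc1 k l⟩
  have ht' : ∀ p, Bd (t' p) := fun p => ⟨C, fun k => htC k p⟩
  have hccomm : ∀ a ∈ F', ∀ l, Eq' (c' l * cst a) (cst a * c' l) := fun a ha l =>
    Eq'.of_le fun k => (hcom k a ha).1 l
  have htcomm : ∀ a ∈ F', ∀ p, Eq' (t' p * cst a) (cst a * t' p) := fun a ha p =>
    Eq'.of_le fun k => (hcom k a ha).2.1 p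
  have hortho : ∀ l l' q, Eq' (c' l * star (c' l') * cst (r' l' q))
      ((if l = l' then c' 0 * c' 0 else 0) * cst (r' l' q)) := by
    intro l l' q
    refine Eq'.of_le fun k => ?_
    have h1 := (hcom k _ (hrF l' q)).2.2 l l'
    have h2 : (if l = l' then c' 0 * c' 0 else (0 : ℕ → B)) k =
        if l = l' then c k 0 * c k 0 else 0 := by
      split_ifs <;> rfl
    rw [Pi.mul_apply, Pi.mul_apply _ (cst (r' l' q)), h2, ← sub_mul]
    exact h1
  let U : Fin K × Fin (N + 2) → ℕ → B := fun x => ∑ l, star (c' l) * cst (r' l x)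
  have hU := fun x y => stepA b r' c' hc' (hccomm b hbF)
    (fun l q => (hccomm _ (hrF' l q) 0).symm) hortho x y
  have hV := fun i j => stepB b (c' 0) (fun x y => ∑ l, star (r' l x) * b * r' l y) U t'
    (hc' 0) ht' hU (fun p => (htcomm b hbF p).symm) i j
  -- choose a large index
  have hev : ∀ᶠ k in atTop, ∀ i j : Fin K,
      ‖(star (∑ p, U (i, p) * t' p) * cst b * (∑ p, U (j, p) * t' p)) k -
        ((if i = j then (∑ p, star (t' p) * (c' 0 * c' 0) * t' p) * cst b else 0) +
        ∑ p, ∑ p', star (t' p) * (c' 0 * c' 0 * cst ((∑ l, star (r' l (i, p)) * b * r' l (j, p')) -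
          if (i, p) = (j, p') then b else 0)) * t' p') k‖ ≤ ε / 3 := by
    rw [eventually_all]
    intro i
    rw [eventually_all]
    intro j
    have h1 := (tendsto_zero_iff_norm_tendsto_zero.1 (hV i j)).eventually
      (ge_mem_nhds (show (0 : ℝ) < ε / 3 by linarith))
    exact h1
  obtain ⟨k, hk⟩ := hev.exists
  refine ⟨fun _ i => (∑ p, U (i, p) * t' p) k, fun _ i => ?_, fun i j => ?_⟩
  · show (∑ p, U (i, p) * t' p) k ∈ I
    rw [Finset.sum_apply]
    exact Submodule.sum_mem _ fun p _ => hI.mulL _ (htI k p) _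
  · rw [Fin.sum_univ_one]
    have h1 := hk i j
    have e1 : star ((∑ p, U (i, p) * t' p) k) * b * (∑ p, U (j, p) * t' p) k =
        (star (∑ p, U (i, p) * t' p) * cst b * (∑ p, U (j, p) * t' p)) k := rfl
    rw [e1]
    generalize (star (∑ p, U (i, p) * t' p) * cst b * (∑ p, U (j, p) * t' p)) k = W at h1 ⊢
    rw [Pi.add_apply] at h1
    have h2 : ‖(∑ p, ∑ p', star (t' p) * (c' 0 * c' 0 * cst
        ((∑ l, star (r' l (i, p)) * b * r' l (j, p')) -
          if (i, p) = (j, p') then b else 0)) * t' p') k‖ ≤ ε / 3 := by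
      refine le_trans ?_ hε1'
      rw [Finset.sum_apply]
      refine (norm_sum_le _ _).trans ?_
      have h3 : ∀ p ∈ (Finset.univ : Finset (Fin (N + 2))),
          ‖(∑ p', star (t' p) * (c' 0 * c' 0 * cst
            ((∑ l, star (r' l (i, p)) * b * r' l (j, p')) -
              if (i, p) = (j, p') then b else 0)) * t' p') k‖ ≤ ((N : ℝ) + 2) * (C ^ 2 * ε1) := by
        intro p _
        rw [Finset.sum_apply]
        refine (norm_sum_le _ _).trans ?_
        have h4 : ∀ p' ∈ (Finset.univ : Finset (Fin (N + 2))),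
            ‖(star (t' p) * (c' 0 * c' 0 * cst
              ((∑ l, star (r' l (i, p)) * b * r' l (j, p')) -
                if (i, p) = (j, p') then b else 0)) * t' p') k‖ ≤ C ^ 2 * ε1 := by
          intro p' _
          have h5 : ‖star (t k p)‖ ≤ C := by
            rw [norm_star]
            exact htC k p
          have h6 : ‖c k 0 * c k 0‖ ≤ 1 * 1 :=
            (norm_mul_le _ _).trans (mul_le_mul (hc1 k 0) (hc1 k 0) (norm_nonneg _) zero_le_one)
          have h7 := hr' (i, p) (j, p')
          have h8 : ‖c k 0 * c k 0 * ((∑ l, star (r' l (i, p)) * b * r' l (j, p')) -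
              if (i, p) = (j, p') then b else 0)‖ ≤ 1 * 1 * ε1 :=
            (norm_mul_le _ _).trans (mul_le_mul h6 h7 (norm_nonneg _) (by norm_num))
          have h9 : ‖star (t k p) * (c k 0 * c k 0 *
              ((∑ l, star (r' l (i, p)) * b * r' l (j, p')) -
              if (i, p) = (j, p') then b else 0)) * t k p'‖ ≤ C * (1 * 1 * ε1) * C := by
            refine (norm_mul_le _ _).trans (mul_le_mul ?_ (htC k p') (norm_nonneg _) ?_)
            · exact (norm_mul_le _ _).trans (mul_le_mul h5 h8 (norm_nonneg _) (by linarith))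
            · have : (0 : ℝ) ≤ C := by linarith
              positivity
          refine le_trans (le_of_eq ?_) (h9.trans (le_of_eq ?_))
          · rfl
          · ring
        refine (Finset.sum_le_sum h4).trans (le_of_eq ?_)
        rw [Finset.sum_const, Finset.card_univ, Fintype.card_fin, nsmul_eq_mul]
        push_cast
        ring
      refine (Finset.sum_le_sum h3).trans (le_of_eq ?_)
      rw [Finset.sum_const, Finset.card_univ, Fintype.card_fin, nsmul_eq_mul]
      push_cast
      ring
    generalize (∑ p, ∑ p', star (t' p) * (c' 0 * c' 0 * cst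
        ((∑ l, star (r' l (i, p)) * b * r' l (j, p')) -
          if (i, p) = (j, p') then b else 0)) * t' p') k = E at h1 h2
    have h3 : ‖(if i = j then (∑ p, star (t' p) * (c' 0 * c' 0) * t' p) * cst b else
        (0 : ℕ → B)) k - (if i = j then b else 0)‖ ≤ ε / 3 := by
      split_ifs with hij
      · have h4 := hfin k b (Finset.mem_singleton_self b)
        have e2 : ((∑ p, star (t' p) * (c' 0 * c' 0) * t' p) * cst b) k =
            (∑ p, star (t k p) * (c k 0 * c k 0) * t k p) * b := by
          rw [Pi.mul_apply, Finset.sum_apply]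
          rfl
        rw [e2]
        exact h4
      · rw [Pi.zero_apply, sub_zero, norm_zero]
        linarith
    generalize (if i = j then (∑ p, star (t' p) * (c' 0 * c' 0) * t' p) * cst b else
        (0 : ℕ → B)) k = V at h1 h3
    have e3 : W - (if i = j then b else 0) =
        (W - (V + E)) + (V - (if i = j then b else 0)) + E := by abel
    rw [e3]
    have h5 := norm_add_le ((W - (V + E)) + (V - (if i = j then b else 0))) E
    have h6 := norm_add_le (W - (V + E)) (V - (if i = j then b else 0))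
    linarith

end Pool.Agent.N37.PX
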